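import Pool.Agent.H52.T2.Fin

/-!
# Two-dimensional Artin groups and the Farrell-Jones conjecture for A-theory

Let `C` be a class of groups with the inheritance properties `Inherits` and the extension property `Extension` (preimages
of virtually cyclic subgroups), which contains the groups that act properly and cocompactly on simply connected
two-dimensional Euclidean complexes of nonpositive curvature (`Cat2`) and the groups `GL_n(ℤ)`. The class of the groups
satisfying the Farrell-Jones conjecture for A-theory with coefficients and finite wreath products is such a class. We prove
that every two-dimensional Artin group is in `C`: the generators are the elements of an arbitrary set `B`, the relations are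
`σ_i σ_j σ_i ⋯ = σ_j σ_i σ_j ⋯` (`M i j` factors) for the pairs with `M i j ≠ 0`, and
`1 / M i j + 1 / M j k + 1 / M i k ≤ 1` for all triples with three finite labels. (The label `2` is allowed.)

Proof. (1) `A = Art M` is the directed colimit of the Artin groups of the finite subsets of `B`, so `B` is finite, and by
adding three generators with labels `4` (the inclusion has a left inverse) every generator has a finite label `≥ 3` and two
finite labels.

(2) `A` acts on the simply connected Deligne complex with the vertices `g` (chambers), `g ⟨σ_i⟩` (hyperedges) and
`g ⟨σ_i, σ_j⟩` (points `p`, `M i j = m(p) ≠ 0`), with the angles `π / 2 - π / (2 m)`, `π / 2`, `π / (2 m)`. The link condition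
at the points says that an alternating product of less than `2 m` nontrivial powers of `σ_i, σ_j` is not trivial; at the
chambers it is the condition on the triples.

(3) There is a homomorphism from `A` to `GL_n(R) × ℤ`, `R` the ring generated by the numbers `2 cos (π / M i j)`, which is
injective on all subgroups `⟨σ_i, σ_j⟩`: `σ_i` is mapped to a transvection, and the second coordinate is the length.

(4) By the extension property it suffices to consider the preimages of cyclic groups; they are groups with finite
stabilisers, which are in the class by `Cat2` and colimits, or have a homomorphism `h` to `ℤ` which is injective on the
stabilisers. By a colimit the action of such a group `P` is cocompact. For a suitable `M > 0` let `N` be the normal subgroup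
generated by the elements `g` of the stabilisers with `M ∣ h(g)`. Then `Y = X / N` is again a simply connected complex with
the link condition, `P / N` acts properly and cocompactly on `Y`, so `P / N` is in the class.

(5) `Y` has levels: its universal cover is built by states (normal forms). A point `p` has a gate, which is a chamber or a
hyperedge; a chamber at the distance `j < m(p)` from the gate in the link of `p` is reached by crossing `j` hyperedges, the
chambers which are farther away have the level of `p` plus `m(p)`. Every hyperedge gets an angle at each of its points,
between `d / m` and `(d + 1) / m` (`d` the depth at the point), such that two angles of a hyperedge have sum less than `π`;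
the angles at a new point are chosen in the middle of the intervals which are allowed. This uses only the condition on the
triples, and it proves the existence and the uniqueness of the states.

(6) The distances `2 l`, `2 l + 1`, `2 l + m(p)` (`l` the level) give a rank of the vertices of `Y`, and so of `X`, whose
descending links in `Y` are trees; hyperedges with nontrivial stabiliser and points at the same distance form a forest (their
angles decrease), and they are ordered by the distance to a root. Since `X` is simply connected, the edges from the vertices to
the roots of their descending links form a tree on which `N` acts, and `N` is in the class. Finally `P` has a homomorphism to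
`P / N × ℤ`: the preimages of the cyclic subgroups act freely on `X` or are, up to finite index, contained in `N`. So `P` is
in the class.
-/

set_option autoImplicit false

namespace Pool.Agent.Results.MP_2a547c_gt.ArtinTwoDimensional

open Pool.Agent.H98.FJ Pool.Agent.H54.CX Pool.Agent.H52.PAG

theorem result (C : (G : Type) → [Group G] → Prop) (hC : Inherits C) (hE : Extension C)
    (hcat : Cat2 C) (hGL : ∀ n : ℕ, C (GL (Fin n) ℤ)) (B : Type) (M : CoxeterMatrix B)
    (hM : ∀ i j k, i ≠ j → j ≠ k → i ≠ k → M i j ≠ 0 → M j k ≠ 0 → M i k ≠ 0 →
      (1 : ℝ) / M i j + 1 / M j k + 1 / M i k ≤ 1) : C (Art M) := by
  refine Pool.Agent.H52.T2.two_dim_mem hC hE hcat hGL B M ?_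
  intro i j k hij hjk hik h1 h2 h3
  have h := hM i j k hij hjk hik h1 h2 h3
  have e1 : (0 : ℝ) < M i j := by exact_mod_cast Nat.pos_of_ne_zero h1
  have e2 : (0 : ℝ) < M j k := by exact_mod_cast Nat.pos_of_ne_zero h2
  have e3 : (0 : ℝ) < M i k := by exact_mod_cast Nat.pos_of_ne_zero h3
  have h4 : (M j k : ℝ) * M i k + M i j * M i k + M i j * M j k ≤ M i j * M j k * M i k := by
    have h5 : ((1 : ℝ) / M i j + 1 / M j k + 1 / M i k) * (M i j * M j k * M i k) ≤ 1 * (M i j * M j k * M i k) :=
      mul_le_mul_of_nonneg_right h (by positivity)
    have h6 : ((1 : ℝ) / M i j + 1 / M j k + 1 / M i k) * (M i j * M j k * M i k) =
        M j k * M i k + M i j * M i k + M i j * M j k := by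
      field_simp
    rw [h6, one_mul] at h5
    exact h5
  exact_mod_cast h4

end Pool.Agent.Results.MP_2a547c_gt.ArtinTwoDimensional
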